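import Pool.Agent.R890.Ham.Path

/-!
# Hamiltonian paths in Cayley digraphs of finite abelian groups

`hs`: every Cayley digraph of a finite abelian group has a Hamiltonian path (Holsztynski and Strube).
`edge`: in an undirected Cayley graph of a finite abelian group there is a Hamiltonian path from `1` to each
nontrivial generator.
-/

set_option autoImplicit false

namespace Pool.Agent.R890.Ham

variable {A : Type*} [CommGroup A]

/-- the Cayley digraph -/
def CR {G : Type*} [Group G] (D : Set G) (x y : G) : Prop := x⁻¹ * y ∈ D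

theorem CR.mul {G : Type*} [Group G] {D : Set G} (z : G) {x y : G} (h : CR D x y) :
    CR D (z * x) (z * y) := by
  unfold CR at *
  rwa [mul_inv_rev, mul_assoc, inv_mul_cancel_left]

theorem CR.symm {G : Type*} [Group G] {D : Set G} (hD : ∀ x ∈ D, x⁻¹ ∈ D) {x y : G}
    (h : CR D x y) : CR D y x := by
  unfold CR at *
  have := hD _ h
  rwa [mul_inv_rev, inv_inv] at this

/-- translates of paths -/
theorem HP.tr {G : Type*} [Group G] {D X : Set G} {u v : G} (z : G) (h : HP (CR D) X u v) :
    HP (CR D) {x | z⁻¹ * x ∈ X} (z * u) (z * v) := by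
  refine (h.map (R' := CR D) (fun x => z * x) (mul_right_injective z)
    (fun x y hxy => hxy.mul z)).congr ?_
  ext x
  simp only [Set.mem_image, Set.mem_ofPred_eq]
  constructor
  · rintro ⟨y, hy, rfl⟩
    rwa [inv_mul_cancel_left]
  · intro hx
    exact ⟨_, hx, by rw [mul_inv_cancel_left]⟩

/-- the first `m` rows -/
def rows (H : Subgroup A) (d : A) (m : ℕ) : Set A := {x | ∃ i < m, (d ^ i)⁻¹ * x ∈ H}

theorem rows_one (H : Subgroup A) (d : A) : rows H d 1 = (H : Set A) := by
  ext x
  simp only [rows, Set.mem_ofPred_eq, SetLike.mem_coe]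
  constructor
  · rintro ⟨i, hi, h⟩
    have : i = 0 := by omega
    subst this
    simpa using h
  · intro h
    exact ⟨0, by omega, by simpa using h⟩

theorem rows_succ (H : Subgroup A) (d : A) (m : ℕ) :
    rows H d (m + 1) = rows H d m ∪ {x | (d ^ m)⁻¹ * x ∈ H} := by
  ext x
  simp only [rows, Set.mem_ofPred_eq, Set.mem_union]
  constructor
  · rintro ⟨i, hi, h⟩
    rcases Nat.lt_succ_iff_lt_or_eq.1 hi with h1 | rfl
    · exact Or.inl ⟨i, h1, h⟩
    · exact Or.inr h
  · rintro (⟨i, hi, h⟩ | h)
    · exact ⟨i, by omega, h⟩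
    · exact ⟨m, by omega, h⟩

theorem rows_succ' (H : Subgroup A) (d : A) (m : ℕ) :
    rows H d (m + 1) = (H : Set A) ∪ {x | d⁻¹ * x ∈ rows H d m} := by
  ext x
  simp only [rows, Set.mem_ofPred_eq, Set.mem_union, SetLike.mem_coe]
  constructor
  · rintro ⟨i, hi, h⟩
    cases i with
    | zero => exact Or.inl (by simpa using h)
    | succ i =>
      refine Or.inr ⟨i, by omega, ?_⟩
      rw [← mul_assoc, ← mul_inv_rev, ← pow_succ']
      exact h
  · rintro (h | ⟨i, hi, h⟩)
    · exact ⟨0, by omega, by simpa using h⟩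
    · refine ⟨i + 1, by omega, ?_⟩
      rw [← mul_assoc, ← mul_inv_rev, ← pow_succ'] at h
      exact h

/-- the order of `d` modulo `H` -/
noncomputable def om (H : Subgroup A) (d : A) : ℕ := orderOf (QuotientGroup.mk d : A ⧸ H)

theorem om_pos [Finite A] (H : Subgroup A) (d : A) : 0 < om H d := orderOf_pos _

theorem pow_mem_iff (H : Subgroup A) (d : A) (k : ℕ) : d ^ k ∈ H ↔ om H d ∣ k := by
  unfold om
  rw [orderOf_dvd_iff_pow_eq_one, ← QuotientGroup.mk_pow, QuotientGroup.eq_one_iff]

theorem rows_disj {H : Subgroup A} {d : A} {i j : ℕ} (hi : i < om H d) (hj : j < om H d) {x : A}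
    (h1 : (d ^ i)⁻¹ * x ∈ H) (h2 : (d ^ j)⁻¹ * x ∈ H) : i = j := by
  have key : ∀ a b : ℕ, a < om H d → b < om H d → (d ^ a)⁻¹ * x ∈ H → (d ^ b)⁻¹ * x ∈ H →
      a ≤ b → a = b := by
    intro a b ha hb h1 h2 hab
    have h3 : d ^ (b - a) ∈ H := by
      have h4 := H.mul_mem h1 (H.inv_mem h2)
      have h5 : (d ^ a)⁻¹ * x * ((d ^ b)⁻¹ * x)⁻¹ = d ^ (b - a) := by
        obtain ⟨c, rfl⟩ := Nat.exists_eq_add_of_le hab
        rw [Nat.add_sub_cancel_left, pow_add]
        group
      rwa [h5] at h4
    rw [pow_mem_iff] at h3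
    rcases Nat.eq_zero_or_pos (b - a) with h | h
    · omega
    · have := Nat.le_of_dvd h h3
      omega
  rcases le_total i j with h | h
  · exact key i j hi hj h1 h2 h
  · exact (key j i hj hi h2 h1 h).symm

theorem rows_full [Finite A] (H : Subgroup A) (d : A) :
    rows H d (om H d) = ((H ⊔ Subgroup.zpowers d : Subgroup A) : Set A) := by
  ext x
  simp only [rows, Set.mem_ofPred_eq, SetLike.mem_coe]
  constructor
  · rintro ⟨i, -, h⟩
    have h1 : x = ((d ^ i)⁻¹ * x) * d ^ i := by
      rw [mul_comm, mul_inv_cancel_left]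
    rw [h1]
    exact Subgroup.mul_mem_sup h (Subgroup.npow_mem_zpowers d i)
  · intro h
    rw [Subgroup.mem_sup] at h
    obtain ⟨y, hy, z, hz, rfl⟩ := h
    obtain ⟨k, rfl⟩ := Subgroup.mem_zpowers_iff.1 hz
    have hpos : (0 : ℤ) < om H d := by exact_mod_cast om_pos H d
    refine ⟨(k % (om H d : ℤ)).toNat, ?_, ?_⟩
    · have := Int.emod_lt_of_pos k hpos
      have h2 := Int.emod_nonneg k hpos.ne'
      omega
    · have h2 := Int.emod_nonneg k hpos.ne'
      have h3 : d ^ ((k % (om H d : ℤ)).toNat) = d ^ (k % (om H d : ℤ)) := by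
        rw [← zpow_natCast, Int.toNat_of_nonneg h2]
      have h4 : d ^ k = d ^ (k % (om H d : ℤ)) * (d ^ (om H d)) ^ (k / (om H d : ℤ)) := by
        rw [← zpow_natCast, ← zpow_mul, ← zpow_add]
        congr 1
        have := Int.emod_add_mul_ediv k (om H d : ℤ)
        omega
      rw [h3, h4, mul_comm y, mul_assoc, inv_mul_cancel_left]
      refine H.mul_mem (H.zpow_mem ?_ _) hy
      exact (pow_mem_iff H d _).2 dvd_rfl

/-- adding a generator, row after row -/
theorem rows_path {D : Set A} {H : Subgroup A} {d f : A} (hd : d ∈ D)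
    (h : HP (CR D) (H : Set A) 1 f) (m : ℕ) (hm : 1 ≤ m) (hmn : m ≤ om H d) :
    ∃ v, (d ^ (m - 1))⁻¹ * v ∈ H ∧ HP (CR D) (rows H d m) 1 v := by
  induction m, hm using Nat.le_induction with
  | base =>
    refine ⟨f, ?_, by rw [rows_one]; exact h⟩
    simpa using h.last_mem
  | succ m hm ih =>
    obtain ⟨v, hv, hp⟩ := ih (by omega)
    have hv' : (d ^ m)⁻¹ * (v * d) ∈ H := by
      have : (d ^ m)⁻¹ * (v * d) = (d ^ (m - 1))⁻¹ * v := by
        obtain ⟨k, rfl⟩ : ∃ k, m = k + 1 := ⟨m - 1, by omega⟩
        rw [Nat.add_sub_cancel, pow_succ, mul_inv, mul_comm v d, mul_assoc, inv_mul_cancel_left]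
      rwa [this]
    have h2 := h.tr (v * d)
    rw [mul_one] at h2
    refine ⟨v * d * f, ?_, ?_⟩
    · rw [Nat.add_sub_cancel, ← mul_assoc]
      exact H.mul_mem hv' h.last_mem
    · rw [rows_succ]
      refine HP.congr (hp.append h2 ?_ ?_) ?_
      · rw [Set.disjoint_left]
        rintro x ⟨i, hi, h3⟩ h4
        have h5 : (d ^ m)⁻¹ * x ∈ H := by
          have h6 := H.mul_mem hv' h4
          rwa [mul_assoc, mul_inv_cancel_left] at h6
        have := rows_disj (by omega) (by omega) h3 h5
        omega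
      · show v⁻¹ * (v * d) ∈ D
        rwa [inv_mul_cancel_left]
      · congr 1
        ext x
        simp only [Set.mem_ofPred_eq, SetLike.mem_coe]
        constructor
        · intro h4
          have h6 := H.mul_mem hv' h4
          rwa [mul_assoc, mul_inv_cancel_left] at h6
        · intro h4
          have h6 := H.mul_mem (H.inv_mem hv') h4
          rw [mul_inv_rev, inv_inv, mul_assoc, mul_inv_cancel_left] at h6
          exact h6

theorem closure_insert_sup (a : A) (D : Set A) :
    Subgroup.closure (insert a D) = Subgroup.closure D ⊔ Subgroup.zpowers a := by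
  rw [← Set.union_singleton, Subgroup.closure_union, Subgroup.zpowers_eq_closure]

/-- **Holsztynski and Strube**: Cayley digraphs of finite abelian groups have Hamiltonian paths -/
theorem hs [Finite A] (D : Set A) :
    ∃ v, HP (CR D) (Subgroup.closure D : Set A) 1 v := by
  have key : ∀ E : Set A, E.Finite → E ⊆ D → ∃ v, HP (CR D) (Subgroup.closure E : Set A) 1 v := by
    intro E hE
    induction E, hE using Set.Finite.induction_on with
    | empty =>
      intro _
      refine ⟨1, (HP.single _ (1 : A)).congr ?_⟩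
      rw [Subgroup.closure_empty, Subgroup.coe_bot]
    | @insert a E _ _ ih =>
      intro hsub
      obtain ⟨f, hf⟩ := ih fun x hx => hsub (Set.mem_insert_of_mem _ hx)
      obtain ⟨v, -, hv⟩ := rows_path (hsub (Set.mem_insert a E)) hf (om (Subgroup.closure E) a)
        (om_pos _ _) le_rfl
      refine ⟨v, hv.congr ?_⟩
      rw [rows_full, closure_insert_sup]
  exact key D (Set.toFinite D) subset_rfl

/-- adding a generator to a Hamiltonian cycle -/
theorem rows_cycle {T : Set A} (hT : ∀ x ∈ T, x⁻¹ ∈ T) {H : Subgroup A} {d : A} (hd : d ∈ T)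
    (m : ℕ) (hm : 1 ≤ m) (hmn : m ≤ om H d) : ∀ u v : A, HP (CR T) (H : Set A) u v →
    CR T v u → u ≠ v → HP (CR T) (rows H d m) u v := by
  induction m, hm using Nat.le_induction with
  | base =>
    intro u v h _ _
    rwa [rows_one]
  | succ m hm ih =>
    intro u v h hvu huv
    obtain ⟨w, huw, hw⟩ := h.tail huv
    have huH : u ∈ (H : Set A) := h.head_mem
    have hwm := hw.head_mem
    have hd1 : Disjoint ((H : Set A) \ {u}) {u} := Set.disjoint_sdiff_left
    have hrot : HP (CR T) (H : Set A) w u := by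
      refine (hw.append (HP.single _ u) hd1 hvu).congr ?_
      rw [Set.sdiff_union_self]
      exact Set.union_eq_left.2 (Set.singleton_subset_iff.2 huH)
    have h1 := (ih (by omega) w u hrot huw (fun h => hwm.2 h)).reverse
      (fun x y hxy => CR.symm hT hxy)
    have h2 := h1.tr d
    rw [rows_succ']
    have hdis : ∀ x, x ∈ H → d⁻¹ * x ∈ rows H d m → False := by
      rintro x hx ⟨i, hi, h4⟩
      rw [← mul_assoc, ← mul_inv_rev, ← pow_succ'] at h4
      have h5 : (d ^ 0)⁻¹ * x ∈ H := by simpa using hx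
      have := rows_disj (by omega) (by omega) h4 h5
      omega
    have h3 : HP (CR T) ({u} ∪ {x | d⁻¹ * x ∈ rows H d m}) u (d * w) := by
      refine (HP.single _ u).append h2 ?_ ?_
      · rw [Set.disjoint_left]
        rintro x hx h4
        rw [Set.mem_singleton_iff] at hx
        subst hx
        exact hdis _ huH h4
      · show u⁻¹ * (d * u) ∈ T
        rwa [mul_comm d u, inv_mul_cancel_left]
    refine (h3.append hw ?_ ?_).congr ?_
    · rw [Set.disjoint_left]
      rintro x (hx | hx) h4
      · exact h4.2 hx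
      · exact hdis x h4.1 hx
    · show (d * w)⁻¹ * w ∈ T
      rw [mul_comm d w, mul_inv_rev, mul_assoc, inv_mul_cancel, mul_one]
      exact hT _ hd
    · ext x
      simp only [Set.mem_union, Set.mem_singleton_iff, Set.mem_ofPred_eq, Set.mem_sdiff,
        SetLike.mem_coe]
      constructor
      · rintro ((rfl | hx) | hx)
        · exact Or.inl huH
        · exact Or.inr hx
        · exact Or.inl hx.1
      · rintro (hx | hx)
        · by_cases hxu : x = u
          · exact Or.inl (Or.inl hxu)
          · exact Or.inr ⟨hx, hxu⟩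
        · exact Or.inl (Or.inr hx)

/-- in a connected Cayley graph of an abelian group there is a Hamiltonian path from `1` to each generator -/
theorem edge [Finite A] {T : Set A} (hT : ∀ x ∈ T, x⁻¹ ∈ T) {t : A} (ht : t ∈ T) (ht1 : t ≠ 1) :
    HP (CR T) (Subgroup.closure T : Set A) 1 t := by
  have key : ∀ E : Set A, E.Finite → E ⊆ T →
      HP (CR T) (Subgroup.closure (insert t⁻¹ E) : Set A) 1 t := by
    intro E hE
    induction E, hE using Set.Finite.induction_on with
    | empty =>
      intro _
      have h0 : HP (CR T) ((⊥ : Subgroup A) : Set A) 1 1 := by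
        rw [Subgroup.coe_bot]
        exact HP.single _ 1
      obtain ⟨v, hv, hp⟩ := rows_path (hT t ht) h0 (om (⊥ : Subgroup A) t⁻¹) (om_pos _ _) le_rfl
      have hvt : v = t := by
        rw [Subgroup.mem_bot, inv_mul_eq_one] at hv
        have h1 : t⁻¹ ^ (om (⊥ : Subgroup A) t⁻¹) ∈ (⊥ : Subgroup A) :=
          (pow_mem_iff _ _ _).2 dvd_rfl
        rw [Subgroup.mem_bot] at h1
        have h2 := om_pos (⊥ : Subgroup A) t⁻¹
        obtain ⟨k, hk⟩ : ∃ k, om (⊥ : Subgroup A) t⁻¹ = k + 1 := ⟨_, (Nat.succ_pred_eq_of_pos h2).symm⟩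
        rw [hk, pow_succ, mul_inv_eq_one] at h1
        rw [hk, Nat.add_sub_cancel, h1] at hv
        exact hv.symm
      rw [hvt] at hp
      refine hp.congr ?_
      rw [rows_full, bot_sup_eq, Subgroup.zpowers_eq_closure]
      simp
    | @insert a E _ _ ih =>
      intro hsub
      have h1 := ih fun x hx => hsub (Set.mem_insert_of_mem _ hx)
      have h2 := rows_cycle hT (hsub (Set.mem_insert a E))
        (om (Subgroup.closure (insert t⁻¹ E)) a) (om_pos _ _) le_rfl 1 t h1
        (by show t⁻¹ * 1 ∈ T; rw [mul_one]; exact hT t ht) (Ne.symm ht1)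
      refine h2.congr ?_
      rw [rows_full, ← closure_insert_sup, Set.insert_comm]
  refine (key T (Set.toFinite T) subset_rfl).congr ?_
  rw [Set.insert_eq_of_mem (hT t ht)]

end Pool.Agent.R890.Ham
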