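import Pool.Agent.R890.Ham.Abel

/-!
# Hamiltonian paths in bi-Cayley graphs of finite abelian groups

The vertex set is `A × Bool`. On the side `false` the connection set is `T`, on the side `true` it is `T'`;
`(x, false)` and `(x, true)` are adjacent, and there are further edges from `(x, true)` to `(x d, false)`
for `d ∈ D`. If `T` and `T'` generate subgroups of the same order and `T`, `T'`, `D` generate `A`, then there
is a Hamiltonian path.
-/

set_option autoImplicit false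

namespace Pool.Agent.R890.Ham

variable {A : Type*} [CommGroup A]

/-- the adjacency relation -/
def BR (T T' D : Set A) (p q : A × Bool) : Prop :=
  (p.2 = false ∧ q.2 = false ∧ p.1⁻¹ * q.1 ∈ T) ∨
  (p.2 = true ∧ q.2 = true ∧ p.1⁻¹ * q.1 ∈ T') ∨
  (p.1 = q.1 ∧ p.2 ≠ q.2) ∨
  (p.2 = true ∧ q.2 = false ∧ p.1⁻¹ * q.1 ∈ D)

theorem HP.sideF {T T' D : Set A} {X : Set A} {u v : A} (h : HP (CR T) X u v) :
    HP (BR T T' D) {p | p.2 = false ∧ p.1 ∈ X} (u, false) (v, false) := by
  refine (h.map (R' := BR T T' D) (fun x => (x, false)) (fun x y hxy => (Prod.mk.inj hxy).1)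
    (fun x y hxy => Or.inl ⟨rfl, rfl, hxy⟩)).congr ?_
  ext ⟨x, b⟩
  simp only [Set.mem_image, Set.mem_ofPred_eq]
  constructor
  · rintro ⟨y, hy, h⟩
    obtain ⟨rfl, rfl⟩ := Prod.mk.inj h
    exact ⟨rfl, hy⟩
  · rintro ⟨rfl, hx⟩
    exact ⟨x, hx, rfl⟩

theorem HP.sideT {T T' D : Set A} {X : Set A} {u v : A} (h : HP (CR T') X u v) :
    HP (BR T T' D) {p | p.2 = true ∧ p.1 ∈ X} (u, true) (v, true) := by
  refine (h.map (R' := BR T T' D) (fun x => (x, true)) (fun x y hxy => (Prod.mk.inj hxy).1)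
    (fun x y hxy => Or.inr (Or.inl ⟨rfl, rfl, hxy⟩))).congr ?_
  ext ⟨x, b⟩
  simp only [Set.mem_image, Set.mem_ofPred_eq]
  constructor
  · rintro ⟨y, hy, h⟩
    obtain ⟨rfl, rfl⟩ := Prod.mk.inj h
    exact ⟨rfl, hy⟩
  · rintro ⟨rfl, hx⟩
    exact ⟨x, hx, rfl⟩

/-- the subgroup generated by the image of a set in a quotient -/
theorem memq (N : Subgroup A) (T : Set A) (x : A) :
    (QuotientGroup.mk x : A ⧸ N) ∈
        Subgroup.closure ((fun y : A => (QuotientGroup.mk y : A ⧸ N)) '' T) ↔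
      x ∈ Subgroup.closure T ⊔ N := by
  have h1 : Subgroup.closure ((fun y : A => (QuotientGroup.mk y : A ⧸ N)) '' T) =
      (Subgroup.closure T).map (QuotientGroup.mk' N) := by
    rw [MonoidHom.map_closure]
    rfl
  rw [h1]
  have h2 := Subgroup.comap_map_eq (QuotientGroup.mk' N) (Subgroup.closure T)
  rw [QuotientGroup.ker_mk'] at h2
  rw [← h2]
  rfl

theorem cnt [Finite A] (N M : Subgroup A) (n : ℕ) (p : ℕ → A ⧸ N)
    (hI : ∀ i ≤ n, ∀ j ≤ n, p i = p j → i = j)
    (hX : ∀ x : A, x ∈ M ↔ ∃ i ≤ n, p i = QuotientGroup.mk x) :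
    Nat.card M = (n + 1) * Nat.card N := by
  have hr : ∀ i, ∃ r : A, (QuotientGroup.mk r : A ⧸ N) = p i := fun i =>
    QuotientGroup.mk_surjective (p i)
  choose r hr using hr
  have hmem : ∀ (i : ℕ) (k : A), k ∈ N → (QuotientGroup.mk (r i * k) : A ⧸ N) = p i := by
    intro i k hk
    rw [← hr i, QuotientGroup.eq]
    rw [mul_inv_rev, mul_assoc, inv_mul_cancel, mul_one]
    exact N.inv_mem hk
  let f : Fin (n + 1) × N → M := fun q => ⟨r q.1 * q.2.1,
    (hX _).2 ⟨q.1, by have := q.1.2; omega, (hmem _ _ q.2.2).symm⟩⟩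
  have hf : Function.Bijective f := by
    constructor
    · rintro ⟨i, k⟩ ⟨j, l⟩ h
      have h1 : r i * k.1 = r j * l.1 := congrArg Subtype.val h
      have h2 : p i = p j := by
        rw [← hmem i k.1 k.2, ← hmem j l.1 l.2, h1]
      have h3 := hI i (by have := i.2; omega) j (by have := j.2; omega) h2
      have h4 : i = j := Fin.ext h3
      subst h4
      have h5 : k = l := Subtype.ext (mul_left_cancel h1)
      rw [h5]
    · rintro ⟨x, hx⟩
      obtain ⟨i, hi, hpi⟩ := (hX x).1 hx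
      rw [← hr i, QuotientGroup.eq] at hpi
      refine ⟨(⟨i, by omega⟩, ⟨(r i)⁻¹ * x, hpi⟩), Subtype.ext ?_⟩
      show r i * ((r i)⁻¹ * x) = x
      rw [mul_inv_cancel_left]
  rw [← Nat.card_congr (Equiv.ofBijective f hf), Nat.card_prod, Nat.card_eq_fintype_card,
    Fintype.card_fin]

/-- a path through one block -/
theorem inner [Finite A] {T T' D : Set A} (hT : ∀ x ∈ T, x⁻¹ ∈ T) (hT' : ∀ x ∈ T', x⁻¹ ∈ T')
    (hc : Nat.card (Subgroup.closure T) = Nat.card (Subgroup.closure T')) (e : A) :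
    ∃ y, e⁻¹ * y ∈ Subgroup.closure T ⊔ Subgroup.closure T' ∧
      HP (BR T T' D) {p | e⁻¹ * p.1 ∈ Subgroup.closure T ⊔ Subgroup.closure T'}
        (e, false) (y, true) := by
  set K := Subgroup.closure T with hK
  set K' := Subgroup.closure T' with hK'
  obtain ⟨_, h⟩ := hs ((fun y : A => (QuotientGroup.mk y : A ⧸ K')) '' T)
  obtain ⟨n, p, p0, -, pR, pI, pX⟩ := h.fn
  obtain ⟨_, h'⟩ := hs ((fun y : A => (QuotientGroup.mk y : A ⧸ K)) '' T')
  obtain ⟨n', p', p0', -, pR', pI', pX'⟩ := h'.fn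
  have pM : ∀ x : A, x ∈ K ⊔ K' ↔ ∃ i ≤ n, p i = QuotientGroup.mk x := by
    intro x
    rw [← pX, SetLike.mem_coe, memq]
  have pM' : ∀ x : A, x ∈ K ⊔ K' ↔ ∃ i ≤ n', p' i = QuotientGroup.mk x := by
    intro x
    rw [← pX', SetLike.mem_coe, memq, sup_comm]
  have hnn : n' = n := by
    have h1 := cnt K' (K ⊔ K') n p pI pM
    have h2 := cnt K (K ⊔ K') n' p' pI' pM'
    rw [h1, hc] at h2
    have h3 : 0 < Nat.card K' := Nat.card_pos
    have := Nat.eq_of_mul_eq_mul_right h3 h2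
    omega
  subst hnn
  have ht : ∀ i, ∃ t, i < n' → t ∈ T ∧ QuotientGroup.mk t = (p i)⁻¹ * p (i + 1) := by
    intro i
    by_cases hi : i < n'
    · obtain ⟨t, h1, h2⟩ := pR i hi
      exact ⟨t, fun _ => ⟨h1, h2⟩⟩
    · exact ⟨1, fun h => absurd h hi⟩
  choose t ht using ht
  have ht' : ∀ i, ∃ t, i < n' → t ∈ T' ∧ QuotientGroup.mk t = (p' i)⁻¹ * p' (i + 1) := by
    intro i
    by_cases hi : i < n'
    · obtain ⟨t, h1, h2⟩ := pR' i hi
      exact ⟨t, fun _ => ⟨h1, h2⟩⟩
    · exact ⟨1, fun h => absurd h hi⟩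
  choose t' ht' using ht'
  obtain ⟨κ, hκ⟩ := hs T
  obtain ⟨lam, hlam⟩ := hs T'
  have hκK : κ ∈ K := hκ.last_mem
  let st : ℕ → A × A := fun j => Nat.rec (e, e * κ) (fun i q => (q.2 * t' i, q.2 * t' i * t i)) j
  have st0 : st 0 = (e, e * κ) := rfl
  have st1 : ∀ j, (st (j + 1)).1 = (st j).2 * t' j := fun j => rfl
  have st2 : ∀ j, (st (j + 1)).2 = (st j).2 * t' j * t j := fun j => rfl
  have hstK : ∀ j ≤ n', (st j).1⁻¹ * (st j).2 ∈ K := by
    intro j hj
    cases j with
    | zero =>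
      rw [st0, inv_mul_cancel_left]
      exact hκK
    | succ j =>
      rw [st1, st2, inv_mul_cancel_left]
      exact Subgroup.subset_closure (ht j hj).1
  have F1 : ∀ j ≤ n', (QuotientGroup.mk (st j).1 : A ⧸ K) = QuotientGroup.mk e * p' j := by
    intro j
    induction j with
    | zero =>
      intro _
      rw [st0, p0', mul_one]
    | succ j ih =>
      intro hj
      have h1 := ih (by omega)
      have h2 := QuotientGroup.eq.2 (hstK j (by omega))
      rw [st1, QuotientGroup.mk_mul, (ht' j hj).2, ← h2, h1, mul_assoc, mul_inv_cancel_left]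
  have F2 : ∀ j ≤ n', (QuotientGroup.mk (st j).2 : A ⧸ K') = QuotientGroup.mk (e * κ) * p j := by
    intro j
    induction j with
    | zero =>
      intro _
      rw [st0, p0, mul_one]
    | succ j ih =>
      intro hj
      have h1 := ih (by omega)
      have h2 : (QuotientGroup.mk (t' j) : A ⧸ K') = 1 :=
        (QuotientGroup.eq_one_iff _).2 (Subgroup.subset_closure (ht' j hj).1)
      rw [st2, QuotientGroup.mk_mul, QuotientGroup.mk_mul, h2, mul_one, (ht j hj).2, h1, mul_assoc,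
        mul_inv_cancel_left]
  have F3 : ∀ j ≤ n', HP (CR T) {x | (st j).1⁻¹ * x ∈ (K : Set A)} (st j).1 (st j).2 := by
    intro j hj
    cases j with
    | zero =>
      have := hκ.tr e
      rw [mul_one] at this
      exact this
    | succ j =>
      have h1 : t j ≠ 1 := by
        intro h0
        have h2 := (ht j hj).2
        rw [h0] at h2
        have h3 : p j = p (j + 1) := (inv_mul_eq_one.1 h2.symm)
        have := pI j (by omega) (j + 1) hj h3
        omega
      have := (edge hT (ht j hj).1 h1).tr (st (j + 1)).1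
      rw [mul_one] at this
      exact this
  have F4 : ∀ j < n', HP (CR T') {x | (st j).2⁻¹ * x ∈ (K' : Set A)} (st j).2 (st (j + 1)).1 := by
    intro j hj
    have h1 : t' j ≠ 1 := by
      intro h0
      have h2 := (ht' j hj).2
      rw [h0] at h2
      have h3 : p' j = p' (j + 1) := (inv_mul_eq_one.1 h2.symm)
      have := pI' j (by omega) (j + 1) hj h3
      omega
    have := (edge hT' (ht' j hj).1 h1).tr (st j).2
    rw [mul_one] at this
    exact this
  -- the cosets are different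
  have d1 : ∀ i ≤ n', ∀ j ≤ n', ∀ x, (st i).1⁻¹ * x ∈ K → (st j).1⁻¹ * x ∈ K → i = j := by
    intro i hi j hj x h1 h2
    have h3 : (QuotientGroup.mk (st i).1 : A ⧸ K) = QuotientGroup.mk (st j).1 :=
      (QuotientGroup.eq.2 h1).trans (QuotientGroup.eq.2 h2).symm
    rw [F1 i hi, F1 j hj] at h3
    exact pI' i hi j hj (mul_left_cancel h3)
  have d2 : ∀ i ≤ n', ∀ j ≤ n', ∀ x, (st i).2⁻¹ * x ∈ K' → (st j).2⁻¹ * x ∈ K' → i = j := by
    intro i hi j hj x h1 h2
    have h3 : (QuotientGroup.mk (st i).2 : A ⧸ K') = QuotientGroup.mk (st j).2 :=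
      (QuotientGroup.eq.2 h1).trans (QuotientGroup.eq.2 h2).symm
    rw [F2 i hi, F2 j hj] at h3
    exact pI i hi j hj (mul_left_cancel h3)
  have main : ∀ j ≤ n', HP (BR T T' D) {p | (p.2 = false ∧ ∃ i ≤ j, (st i).1⁻¹ * p.1 ∈ K) ∨
      (p.2 = true ∧ ∃ i < j, (st i).2⁻¹ * p.1 ∈ K')} (e, false) ((st j).2, false) := by
    intro j
    induction j with
    | zero =>
      intro _
      refine ((F3 0 (Nat.zero_le _)).sideF (T' := T') (D := D)).congr ?_
      ext ⟨x, b⟩
      simp only [Set.mem_ofPred_eq]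
      constructor
      · rintro ⟨h1, h2⟩
        exact Or.inl ⟨h1, 0, le_rfl, h2⟩
      · rintro (⟨h1, i, hi, h2⟩ | ⟨-, i, hi, -⟩)
        · obtain rfl : i = 0 := by omega
          exact ⟨h1, h2⟩
        · omega
    | succ j ih =>
      intro hj
      have h1 := ih (by omega)
      have h2 := (F4 j hj).sideT (T := T) (D := D)
      have h3 := (F3 (j + 1) hj).sideF (T' := T') (D := D)
      have h4 := h2.append h3 (by
        rw [Set.disjoint_left]
        rintro x ⟨h5, -⟩ ⟨h6, -⟩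
        rw [h5] at h6
        exact absurd h6 (by decide)) (Or.inr (Or.inr (Or.inl ⟨rfl, Bool.false_ne_true.symm⟩)))
      refine (h1.append h4 ?_ (Or.inr (Or.inr (Or.inl ⟨rfl, Bool.false_ne_true⟩)))).congr ?_
      · rw [Set.disjoint_left]
        rintro ⟨x, b⟩ (⟨h5, i, hi, h6⟩ | ⟨h5, i, hi, h6⟩) (⟨h7, h8⟩ | ⟨h7, h8⟩)
        · exact absurd (h5.symm.trans h7) (by decide)
        · have := d1 i (by omega) (j + 1) hj x h6 h8
          omega
        · have := d2 i (by omega) j (by omega) x h6 h8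
          omega
        · exact absurd (h5.symm.trans h7) (by decide)
      · ext ⟨x, b⟩
        simp only [Set.mem_ofPred_eq, Set.mem_union]
        constructor
        · rintro ((⟨h5, i, hi, h6⟩ | ⟨h5, i, hi, h6⟩) | (⟨h7, h8⟩ | ⟨h7, h8⟩))
          · exact Or.inl ⟨h5, i, by omega, h6⟩
          · exact Or.inr ⟨h5, i, by omega, h6⟩
          · exact Or.inr ⟨h7, j, by omega, h8⟩
          · exact Or.inl ⟨h7, j + 1, le_rfl, h8⟩
        · rintro (⟨h5, i, hi, h6⟩ | ⟨h5, i, hi, h6⟩)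
          · rcases Nat.lt_or_ge j i with h9 | h9
            · obtain rfl : i = j + 1 := by omega
              exact Or.inr (Or.inr ⟨h5, h6⟩)
            · exact Or.inl (Or.inl ⟨h5, i, h9, h6⟩)
          · rcases Nat.lt_or_ge i j with h9 | h9
            · exact Or.inl (Or.inr ⟨h5, i, h9, h6⟩)
            · obtain rfl : i = j := by omega
              exact Or.inr (Or.inl ⟨h5, h6⟩)
  have hm := main n' le_rfl
  have hl := hlam.tr (st n').2
  rw [mul_one] at hl
  have hl2 := hl.sideT (T := T) (D := D)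
  have hKM : K ≤ K ⊔ K' := le_sup_left
  have hK'M : K' ≤ K ⊔ K' := le_sup_right
  have eκ : ∀ x : A, e⁻¹ * x ∈ K ⊔ K' ↔ (e * κ)⁻¹ * x ∈ K ⊔ K' := by
    intro x
    have h1 : (e * κ)⁻¹ * x = κ⁻¹ * (e⁻¹ * x) := by rw [mul_inv_rev, mul_assoc]
    rw [h1]
    exact ((K ⊔ K').mul_mem_cancel_left ((K ⊔ K').inv_mem (hKM hκK))).symm
  have cF : ∀ x : A, e⁻¹ * x ∈ K ⊔ K' ↔ ∃ i ≤ n', (st i).1⁻¹ * x ∈ K := by
    intro x
    rw [pM']
    refine exists_congr fun i => and_congr_right fun hi => ?_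
    rw [← QuotientGroup.eq, F1 i hi, QuotientGroup.mk_mul, QuotientGroup.mk_inv,
      eq_inv_mul_iff_mul_eq]
  have cT : ∀ x : A, e⁻¹ * x ∈ K ⊔ K' ↔ ∃ i ≤ n', (st i).2⁻¹ * x ∈ K' := by
    intro x
    rw [eκ, pM]
    refine exists_congr fun i => and_congr_right fun hi => ?_
    have h1 : (QuotientGroup.mk ((e * κ)⁻¹ * x) : A ⧸ K') =
        (QuotientGroup.mk (e * κ))⁻¹ * QuotientGroup.mk x := rfl
    rw [← QuotientGroup.eq, F2 i hi, h1, eq_inv_mul_iff_mul_eq]
  refine ⟨(st n').2 * lam, ?_, ?_⟩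
  · rw [cT]
    refine ⟨n', le_rfl, ?_⟩
    rw [inv_mul_cancel_left]
    exact hlam.last_mem
  · refine (hm.append hl2 ?_ (Or.inr (Or.inr (Or.inl ⟨rfl, Bool.false_ne_true⟩)))).congr ?_
    · rw [Set.disjoint_left]
      rintro ⟨x, b⟩ (⟨h5, i, hi, h6⟩ | ⟨h5, i, hi, h6⟩) ⟨h7, h8⟩
      · exact absurd (h5.symm.trans h7) (by decide)
      · have := d2 i (by omega) n' le_rfl x h6 h8
        omega
    · ext ⟨x, b⟩
      simp only [Set.mem_ofPred_eq, Set.mem_union]
      constructor
      · rintro ((⟨h5, i, hi, h6⟩ | ⟨h5, i, hi, h6⟩) | ⟨h7, h8⟩)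
        · exact (cF x).2 ⟨i, hi, h6⟩
        · exact (cT x).2 ⟨i, by omega, h6⟩
        · exact (cT x).2 ⟨n', le_rfl, h8⟩
      · intro h1
        cases b with
        | false => exact Or.inl (Or.inl ⟨rfl, (cF x).1 h1⟩)
        | true =>
          obtain ⟨i, hi, h2⟩ := (cT x).1 h1
          rcases Nat.lt_or_ge i n' with h9 | h9
          · exact Or.inl (Or.inr ⟨rfl, i, h9, h2⟩)
          · obtain rfl : i = n' := by omega
            exact Or.inr ⟨rfl, h2⟩

/-- **Hamiltonian paths in bi-Cayley graphs** -/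
theorem bi [Finite A] {T T' D : Set A} (hT : ∀ x ∈ T, x⁻¹ ∈ T) (hT' : ∀ x ∈ T', x⁻¹ ∈ T')
    (hc : Nat.card (Subgroup.closure T) = Nat.card (Subgroup.closure T'))
    (hg : Subgroup.closure D ⊔ (Subgroup.closure T ⊔ Subgroup.closure T') = ⊤) :
    ∃ v, HP (BR T T' D) Set.univ ((1 : A), false) v := by
  set M := Subgroup.closure T ⊔ Subgroup.closure T' with hM
  obtain ⟨_, h⟩ := hs ((fun y : A => (QuotientGroup.mk y : A ⧸ M)) '' D)
  obtain ⟨n, p, p0, -, pR, pI, pX⟩ := h.fn
  have pM : ∀ x : A, ∃ i ≤ n, p i = QuotientGroup.mk x := by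
    intro x
    rw [← pX, SetLike.mem_coe, memq, hg]
    exact Subgroup.mem_top x
  have main : ∀ j ≤ n, ∃ y : A, (QuotientGroup.mk y : A ⧸ M) = p j ∧
      HP (BR T T' D) {q | ∃ i ≤ j, p i = QuotientGroup.mk q.1} ((1 : A), false) (y, true) := by
    intro j
    induction j with
    | zero =>
      intro _
      obtain ⟨y, h1, h2⟩ := inner (D := D) hT hT' hc (1 : A)
      refine ⟨y, ?_, h2.congr ?_⟩
      · rw [p0, QuotientGroup.eq_one_iff]
        simpa using h1
      · ext q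
        simp only [Set.mem_ofPred_eq]
        constructor
        · intro h3
          refine ⟨0, le_rfl, ?_⟩
          rw [p0]
          refine ((QuotientGroup.eq_one_iff _).2 ?_).symm
          simpa using h3
        · rintro ⟨i, hi, h3⟩
          obtain rfl : i = 0 := by omega
          rw [p0] at h3
          have := (QuotientGroup.eq_one_iff _).1 h3.symm
          simpa using this
    | succ j ih =>
      intro hj
      obtain ⟨y, h1, h2⟩ := ih (by omega)
      obtain ⟨d, hd, hd2⟩ := pR j hj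
      obtain ⟨z, h3, h4⟩ := inner (D := D) hT hT' hc (y * d)
      have h5 : (QuotientGroup.mk (y * d) : A ⧸ M) = p (j + 1) := by
        have hd3 : (QuotientGroup.mk d : A ⧸ M) = (p j)⁻¹ * p (j + 1) := hd2
        rw [QuotientGroup.mk_mul, h1, hd3, mul_inv_cancel_left]
      have h6 : ∀ x : A, (y * d)⁻¹ * x ∈ M ↔ p (j + 1) = QuotientGroup.mk x := by
        intro x
        rw [← QuotientGroup.eq, h5]
      refine ⟨z, ((h6 z).1 h3).symm, (h2.append h4 ?_ ?_).congr ?_⟩
      · rw [Set.disjoint_left]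
        rintro q ⟨i, hi, h7⟩ h8
        have h9 := (h6 q.1).1 h8
        have := pI i (by omega) (j + 1) hj (h7.trans h9.symm)
        omega
      · refine Or.inr (Or.inr (Or.inr ⟨rfl, rfl, ?_⟩))
        show y⁻¹ * (y * d) ∈ D
        rwa [inv_mul_cancel_left]
      · ext q
        simp only [Set.mem_ofPred_eq, Set.mem_union]
        constructor
        · rintro (⟨i, hi, h7⟩ | h7)
          · exact ⟨i, by omega, h7⟩
          · exact ⟨j + 1, le_rfl, (h6 q.1).1 h7⟩
        · rintro ⟨i, hi, h7⟩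
          rcases Nat.lt_or_ge j i with h9 | h9
          · obtain rfl : i = j + 1 := by omega
            exact Or.inr ((h6 q.1).2 h7)
          · exact Or.inl ⟨i, h9, h7⟩
  obtain ⟨y, -, h2⟩ := main n le_rfl
  refine ⟨_, h2.congr ?_⟩
  ext q
  simp only [Set.mem_ofPred_eq, Set.mem_univ, iff_true]
  exact pM q.1

end Pool.Agent.R890.Ham
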