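import Mathlib

/-!
# Spanning paths of sets of vertices

`HP R X u v`: there is a path of `R` from `u` to `v` which visits each element of `X` exactly once and nothing
else.
-/

set_option autoImplicit false

namespace Pool.Agent.R890.Ham

variable {V W : Type*}

/-- there is a path of the relation `R` from `u` to `v` through all elements of `X`, each exactly once -/
def HP (R : V → V → Prop) (X : Set V) (u v : V) : Prop :=
  ∃ l : List V, l.IsChain R ∧ l.Nodup ∧ (∀ x, x ∈ l ↔ x ∈ X) ∧ l.head? = some u ∧
    l.getLast? = some v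

variable {R : V → V → Prop} {X Y : Set V} {u v u' v' : V}

theorem HP.head_mem (h : HP R X u v) : u ∈ X := by
  obtain ⟨l, -, -, h3, h4, -⟩ := h
  exact (h3 u).1 (List.mem_of_mem_head? h4)

theorem HP.last_mem (h : HP R X u v) : v ∈ X := by
  obtain ⟨l, -, -, h3, -, h5⟩ := h
  exact (h3 v).1 (List.mem_of_getLast? h5)

theorem HP.single (R : V → V → Prop) (u : V) : HP R {u} u u :=
  ⟨[u], by simp, by simp, by simp, by simp, by simp⟩

theorem HP.append (h1 : HP R X u v) (h2 : HP R Y u' v') (hd : Disjoint X Y) (hr : R v u') :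
    HP R (X ∪ Y) u v' := by
  obtain ⟨l, a1, a2, a3, a4, a5⟩ := h1
  obtain ⟨m, b1, b2, b3, b4, b5⟩ := h2
  refine ⟨l ++ m, ?_, ?_, ?_, ?_, ?_⟩
  · refine a1.append b1 ?_
    intro x hx y hy
    rw [a5] at hx
    rw [b4] at hy
    rw [Option.mem_def, Option.some.injEq] at hx hy
    rw [← hx, ← hy]
    exact hr
  · refine List.nodup_append.2 ⟨a2, b2, ?_⟩
    rintro x hx y hy rfl
    exact Set.disjoint_left.1 hd ((a3 x).1 hx) ((b3 x).1 hy)
  · intro x
    rw [List.mem_append, a3, b3]
    rfl
  · rw [List.head?_append, a4]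
    rfl
  · rw [List.getLast?_append, b5]
    rfl

theorem HP.reverse (hs : ∀ x y, R x y → R y x) (h : HP R X u v) : HP R X v u := by
  obtain ⟨l, a1, a2, a3, a4, a5⟩ := h
  refine ⟨l.reverse, ?_, ?_, ?_, ?_, ?_⟩
  · rw [List.isChain_reverse]
    exact a1.imp fun a b hab => hs a b hab
  · exact List.nodup_reverse.2 a2
  · intro x
    rw [List.mem_reverse, a3]
  · rw [List.head?_reverse, a5]
  · rw [List.getLast?_reverse, a4]

theorem HP.map {R' : W → W → Prop} (f : V → W) (hf : Function.Injective f)
    (hR : ∀ x y, R x y → R' (f x) (f y)) (h : HP R X u v) : HP R' (f '' X) (f u) (f v) := by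
  obtain ⟨l, a1, a2, a3, a4, a5⟩ := h
  refine ⟨l.map f, ?_, a2.map hf, ?_, ?_, ?_⟩
  · rw [List.isChain_map]
    exact a1.imp fun a b hab => hR a b hab
  · intro x
    rw [List.mem_map]
    constructor
    · rintro ⟨y, hy, rfl⟩
      exact ⟨y, (a3 y).1 hy, rfl⟩
    · rintro ⟨y, hy, rfl⟩
      exact ⟨y, (a3 y).2 hy, rfl⟩
  · rw [List.head?_map, a4]
    rfl
  · rw [List.getLast?_map, a5]
    rfl

theorem HP.mono {R' : V → V → Prop} (hR : ∀ x y, R x y → R' x y) (h : HP R X u v) :
    HP R' X u v := by
  obtain ⟨l, a1, a2⟩ := h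
  exact ⟨l, a1.imp fun a b hab => hR a b hab, a2⟩

theorem HP.congr (h : HP R X u v) (hX : X = Y) : HP R Y u v := hX ▸ h

/-- splitting off the first vertex -/
theorem HP.tail (h : HP R X u v) (huv : u ≠ v) : ∃ w, R u w ∧ HP R (X \ {u}) w v := by
  obtain ⟨l, a1, a2, a3, a4, a5⟩ := h
  cases l with
  | nil => simp at a4
  | cons a m =>
    have hau : a = u := by simpa using a4
    subst hau
    cases m with
    | nil =>
      exact absurd (by simpa using a5) huv
    | cons w r =>
      rw [List.isChain_cons_cons] at a1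
      refine ⟨w, a1.1, w :: r, a1.2, (List.nodup_cons.1 a2).2, ?_, rfl, ?_⟩
      · intro x
        rw [Set.mem_sdiff, ← a3, List.mem_cons (a := x) (b := a), Set.mem_singleton_iff]
        constructor
        · intro hx
          refine ⟨Or.inr hx, ?_⟩
          rintro rfl
          exact (List.nodup_cons.1 a2).1 hx
        · rintro ⟨hx | hx, hne⟩
          · exact absurd hx hne
          · exact hx
      · rw [← a5]
        simp

/-- a path as a function -/
theorem HP.fn (h : HP R X u v) : ∃ (n : ℕ) (p : ℕ → V), p 0 = u ∧ p n = v ∧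
    (∀ i < n, R (p i) (p (i + 1))) ∧ (∀ i ≤ n, ∀ j ≤ n, p i = p j → i = j) ∧
    (∀ x, x ∈ X ↔ ∃ i ≤ n, p i = x) := by
  obtain ⟨l, a1, a2, a3, a4, a5⟩ := h
  have hl : l ≠ [] := by
    rintro rfl
    simp at a4
  have hlen : 0 < l.length := List.length_pos_iff.2 hl
  refine ⟨l.length - 1, fun i => l.getD i u, ?_, ?_, ?_, ?_, ?_⟩
  · cases l with
    | nil => exact absurd rfl hl
    | cons a m =>
      have : a = u := by simpa using a4
      simp [this]
  · show l.getD (l.length - 1) u = v
    rw [List.getD_eq_getElem _ _ (by omega)]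
    have := List.getLast?_eq_getElem? (l := l)
    rw [a5] at this
    have h2 := (List.getElem?_eq_some_iff.1 this.symm).2
    exact h2
  · intro i hi
    show R (l.getD i u) (l.getD (i + 1) u)
    rw [List.getD_eq_getElem _ _ (by omega), List.getD_eq_getElem _ _ (by omega)]
    exact List.isChain_iff_getElem.1 a1 i (by omega)
  · intro i hi j hj hij
    replace hij : l.getD i u = l.getD j u := hij
    rw [List.getD_eq_getElem _ _ (by omega), List.getD_eq_getElem _ _ (by omega)] at hij
    exact (List.Nodup.getElem_inj_iff a2).1 hij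
  · intro x
    rw [← a3]
    constructor
    · intro hx
      obtain ⟨i, hi, hx⟩ := List.getElem_of_mem hx
      refine ⟨i, by omega, ?_⟩
      show l.getD i u = x
      rw [List.getD_eq_getElem _ _ hi, hx]
    · rintro ⟨i, hi, hx⟩
      replace hx : l.getD i u = x := hx
      rw [List.getD_eq_getElem _ _ (by omega)] at hx
      rw [← hx]
      exact List.getElem_mem _

end Pool.Agent.R890.Ham
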