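import Pool.Agent.R890.Ham.Bi

/-!
# Cayley graphs of groups with an abelian subgroup of index two
-/

set_option autoImplicit false

namespace Pool.Agent.R890.Ham

variable {G : Type*} [Group G]

/-- a listing sequence from a Hamiltonian path -/
theorem listing [Finite G] {S : Set G} {u v : G} (h : HP (CR S) Set.univ u v) (hne : S.Nonempty) :
    ∃ a : Fin (Nat.card G) → G, (∀ i, a i ∈ S) ∧
      Function.Injective fun k : Fin (Nat.card G) => Fin.partialProd a k.succ := by
  obtain ⟨n, p, p0, -, pR, pI, pX⟩ := h.fn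
  obtain ⟨s, hs⟩ := hne
  have hcard : Nat.card G = n + 1 := by
    have hf : Function.Bijective fun i : Fin (n + 1) => p i := by
      constructor
      · intro i j hij
        have := i.2
        have := j.2
        exact Fin.ext (pI i (by omega) j (by omega) hij)
      · intro x
        obtain ⟨i, hi, hx⟩ := (pX x).1 (Set.mem_univ x)
        exact ⟨⟨i, by omega⟩, hx⟩
    rw [← Nat.card_congr (Equiv.ofBijective _ hf), Nat.card_eq_fintype_card, Fintype.card_fin]
  rw [hcard]
  -- the sequence
  let a : Fin (n + 1) → G := fun i => if (i : ℕ) = 0 then s else (p (i - 1))⁻¹ * p i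
  have hpp : ∀ k : ℕ, ∀ hk : k < n + 1,
      Fin.partialProd a (⟨k, hk⟩ : Fin (n + 1)).succ = s * (p 0)⁻¹ * p k := by
    intro k
    induction k with
    | zero =>
      intro hk
      rw [Fin.partialProd_succ]
      show Fin.partialProd a 0 * a 0 = _
      rw [Fin.partialProd_zero, one_mul, inv_mul_cancel_right]
      simp [a]
    | succ k ih =>
      intro hk
      rw [Fin.partialProd_succ]
      have h1 : (⟨k + 1, hk⟩ : Fin (n + 1)).castSucc = (⟨k, by omega⟩ : Fin (n + 1)).succ := rfl
      rw [h1, ih (by omega)]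
      have h2 : a ⟨k + 1, hk⟩ = (p k)⁻¹ * p (k + 1) := by
        simp [a]
      rw [h2, mul_assoc, mul_inv_cancel_left]
  refine ⟨a, ?_, ?_⟩
  · rintro ⟨i, hi⟩
    cases i with
    | zero => simpa [a] using hs
    | succ i =>
      have h2 : a ⟨i + 1, hi⟩ = (p i)⁻¹ * p (i + 1) := by
        simp [a]
      rw [h2]
      exact pR i (by omega)
  · intro i j hij
    have h1 := hpp i i.2
    have h2 := hpp j j.2
    have h3 : s * (p 0)⁻¹ * p i = s * (p 0)⁻¹ * p j := by
      rw [← h1, ← h2]
      exact hij
    have := i.2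
    have := j.2
    exact Fin.ext (pI i (by omega) j (by omega) (mul_left_cancel h3))

/-- **Hamiltonian paths for groups with an abelian subgroup of index two** -/
theorem index_two [Finite G] (A : Subgroup G) (hA : ∀ x ∈ A, ∀ y ∈ A, x * y = y * x)
    (hI : A.index = 2) (S : Set G) (hS : ∀ x ∈ S, x⁻¹ ∈ S) (hgen : Subgroup.closure S = ⊤) :
    ∃ u v, HP (CR S) Set.univ u v := by
  have mem2 : ∀ {a b : G}, a * b ∈ A ↔ (a ∈ A ↔ b ∈ A) := fun {a b} =>
    Subgroup.mul_mem_iff_of_index_two hI
  obtain ⟨s, hsS, hsA⟩ : ∃ s ∈ S, s ∉ A := by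
    by_contra hcon
    push Not at hcon
    have : Subgroup.closure S ≤ A := (Subgroup.closure_le A).2 hcon
    rw [hgen, top_le_iff] at this
    rw [this, Subgroup.index_top] at hI
    omega
  let _ : CommGroup A := { (inferInstance : Group A) with
    mul_comm := fun x y => Subtype.ext (hA x x.2 y y.2) }
  have cA : ∀ x : G, x ∈ A → s * x * s⁻¹ ∈ A := by
    intro x hx
    rw [mem2, mem2, Subgroup.inv_mem_iff]
    tauto
  have cA' : ∀ x : G, x ∈ A → s⁻¹ * x * s ∈ A := by
    intro x hx
    rw [mem2, mem2, Subgroup.inv_mem_iff]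
    tauto
  let T : Set A := {x | (x : G) ∈ S}
  let T' : Set A := {x | s⁻¹ * (x : G) * s ∈ S}
  let D : Set A := {x | s⁻¹ * (x : G) ∈ S}
  have hT : ∀ x ∈ T, x⁻¹ ∈ T := fun x hx => hS _ hx
  have hT' : ∀ x ∈ T', x⁻¹ ∈ T' := by
    intro x hx
    have := hS _ hx
    show s⁻¹ * (x : G)⁻¹ * s ∈ S
    rwa [mul_inv_rev, mul_inv_rev, inv_inv, ← mul_assoc] at this
  -- conjugation by `s`
  let c : A ≃* A :=
    { toFun := fun x => ⟨s * x * s⁻¹, cA x x.2⟩
      invFun := fun x => ⟨s⁻¹ * x * s, cA' x x.2⟩
      left_inv := fun x => Subtype.ext (by show s⁻¹ * (s * (x : G) * s⁻¹) * s = x; group)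
      right_inv := fun x => Subtype.ext (by show s * (s⁻¹ * (x : G) * s) * s⁻¹ = x; group)
      map_mul' := fun x y => Subtype.ext (by
        show s * ((x : G) * y) * s⁻¹ = s * x * s⁻¹ * (s * y * s⁻¹)
        group) }
  have hcT : T' = c '' T := by
    ext x
    constructor
    · intro hx
      refine ⟨c.symm x, hx, c.apply_symm_apply x⟩
    · rintro ⟨y, hy, rfl⟩
      show s⁻¹ * (s * (y : G) * s⁻¹) * s ∈ S
      have : s⁻¹ * (s * (y : G) * s⁻¹) * s = y := by group
      rw [this]
      exact hy
  have hc : Nat.card (Subgroup.closure T) = Nat.card (Subgroup.closure T') := by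
    have h1 : Subgroup.closure T' = (Subgroup.closure T).map c.toMonoidHom := by
      rw [MonoidHom.map_closure, hcT]
      rfl
    rw [h1]
    exact (Nat.card_congr ((Subgroup.closure T).equivMapOfInjective c.toMonoidHom
      c.injective).toEquiv)
  set B := Subgroup.closure D ⊔ (Subgroup.closure T ⊔ Subgroup.closure T') with hB
  have hTB : ∀ x ∈ T, x ∈ B := fun x hx =>
    (le_sup_left.trans le_sup_right : Subgroup.closure T ≤ B) (Subgroup.subset_closure hx)
  have hT'B : ∀ x ∈ T', x ∈ B := fun x hx =>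
    (le_sup_right.trans le_sup_right : Subgroup.closure T' ≤ B) (Subgroup.subset_closure hx)
  have hDB : ∀ x ∈ D, x ∈ B := fun x hx =>
    (le_sup_left : Subgroup.closure D ≤ B) (Subgroup.subset_closure hx)
  have hg : B = ⊤ := by
    -- the set `B ∪ B s` is closed under right multiplication by `S`
    have hX : ∀ g : G, (∃ b : A, b ∈ B ∧ (g = b ∨ g = b * s)) := by
      intro g
      have hgS : g ∈ Subgroup.closure S := by rw [hgen]; exact Subgroup.mem_top g
      induction hgS using Subgroup.closure_induction_right with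
      | one => exact ⟨1, B.one_mem, Or.inl rfl⟩
      | mul_right x hx y hy ih =>
        obtain ⟨b, hb, rfl | rfl⟩ := ih
        · by_cases hyA : y ∈ A
          · exact ⟨b * ⟨y, hyA⟩, B.mul_mem hb (hTB ⟨y, hyA⟩ hy), Or.inl rfl⟩
          · have h1 : s * y⁻¹ ∈ A := by
              rw [mem2, Subgroup.inv_mem_iff]
              tauto
            have h2 : (⟨s * y⁻¹, h1⟩ : A) ∈ D := by
              show s⁻¹ * (s * y⁻¹) ∈ S
              rw [inv_mul_cancel_left]
              exact hS _ hy
            refine ⟨b * (⟨s * y⁻¹, h1⟩ : A)⁻¹, B.mul_mem hb (B.inv_mem (hDB _ h2)), Or.inr ?_⟩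
            show (b : G) * y = b * (s * y⁻¹)⁻¹ * s
            group
        · by_cases hyA : y ∈ A
          · have h2 : (⟨s * y * s⁻¹, cA y hyA⟩ : A) ∈ T' := by
              show s⁻¹ * (s * y * s⁻¹) * s ∈ S
              have : s⁻¹ * (s * y * s⁻¹) * s = y := by group
              rw [this]
              exact hy
            refine ⟨b * ⟨s * y * s⁻¹, cA y hyA⟩, B.mul_mem hb (hT'B _ h2), Or.inr ?_⟩
            show (b : G) * s * y = b * (s * y * s⁻¹) * s
            group
          · have h1 : s * y ∈ A := by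
              rw [mem2]
              tauto
            have h2 : (⟨s * y, h1⟩ : A) ∈ D := by
              show s⁻¹ * (s * y) ∈ S
              rw [inv_mul_cancel_left]
              exact hy
            exact ⟨b * ⟨s * y, h1⟩, B.mul_mem hb (hDB _ h2), Or.inl (by
              show (b : G) * s * y = b * (s * y)
              rw [mul_assoc])⟩
      | mul_inv_cancel x hx y hy ih =>
        obtain ⟨b, hb, rfl | rfl⟩ := ih
        · by_cases hyA : y ∈ A
          · exact ⟨b * (⟨y, hyA⟩ : A)⁻¹, B.mul_mem hb (B.inv_mem (hTB ⟨y, hyA⟩ hy)), Or.inl rfl⟩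
          · have h1 : s * y ∈ A := by
              rw [mem2]
              tauto
            have h2 : (⟨s * y, h1⟩ : A) ∈ D := by
              show s⁻¹ * (s * y) ∈ S
              rw [inv_mul_cancel_left]
              exact hy
            refine ⟨b * (⟨s * y, h1⟩ : A)⁻¹, B.mul_mem hb (B.inv_mem (hDB _ h2)), Or.inr ?_⟩
            show (b : G) * y⁻¹ = b * (s * y)⁻¹ * s
            group
        · by_cases hyA : y ∈ A
          · have h2 : (⟨s * y * s⁻¹, cA y hyA⟩ : A) ∈ T' := by
              show s⁻¹ * (s * y * s⁻¹) * s ∈ S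
              have : s⁻¹ * (s * y * s⁻¹) * s = y := by group
              rw [this]
              exact hy
            refine ⟨b * (⟨s * y * s⁻¹, cA y hyA⟩ : A)⁻¹,
              B.mul_mem hb (B.inv_mem (hT'B _ h2)), Or.inr ?_⟩
            show (b : G) * s * y⁻¹ = b * (s * y * s⁻¹)⁻¹ * s
            group
          · have h1 : s * y⁻¹ ∈ A := by
              rw [mem2, Subgroup.inv_mem_iff]
              tauto
            have h2 : (⟨s * y⁻¹, h1⟩ : A) ∈ D := by
              show s⁻¹ * (s * y⁻¹) ∈ S
              rw [inv_mul_cancel_left]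
              exact hS _ hy
            exact ⟨b * ⟨s * y⁻¹, h1⟩, B.mul_mem hb (hDB _ h2), Or.inl (by
              show (b : G) * s * y⁻¹ = b * (s * y⁻¹)
              rw [mul_assoc])⟩
    rw [Subgroup.eq_top_iff']
    intro x
    obtain ⟨b, hb, h1 | h1⟩ := hX x
    · have : x = b := Subtype.ext h1
      rwa [this]
    · exfalso
      have h2 : (b : G) * s ∈ A := by
        rw [← h1]
        exact x.2
      rw [mem2] at h2
      exact hsA (h2.1 b.2)
  obtain ⟨w, hw⟩ := bi hT hT' hc hg
  let f : A × Bool → G := fun q => bif q.2 then (q.1 : G) * s else q.1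
  have hf : Function.Injective f := by
    rintro ⟨x, bx⟩ ⟨y, by'⟩ h
    cases bx <;> cases by'
    · have h1 : (x : G) = y := h
      rw [Subtype.ext h1]
    · exfalso
      have h1 : (x : G) = y * s := h
      have h2 : (y : G) * s ∈ A := by
        rw [← h1]
        exact x.2
      rw [mem2] at h2
      exact hsA (h2.1 y.2)
    · exfalso
      have h1 : (x : G) * s = y := h
      have h2 : (x : G) * s ∈ A := by
        rw [h1]
        exact y.2
      rw [mem2] at h2
      exact hsA (h2.1 x.2)
    · have h1 : (x : G) * s = y * s := h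
      rw [Subtype.ext (mul_right_cancel h1)]
  have hR : ∀ q r, BR T T' D q r → CR S (f q) (f r) := by
    rintro ⟨x, bx⟩ ⟨y, by'⟩ (⟨h1, h2, h3⟩ | ⟨h1, h2, h3⟩ | ⟨h1, h2⟩ | ⟨h1, h2, h3⟩)
    · have h1' : bx = false := h1
      have h2' : by' = false := h2
      subst h1' h2'
      exact h3
    · have h1' : bx = true := h1
      have h2' : by' = true := h2
      subst h1' h2'
      show ((x : G) * s)⁻¹ * (y * s) ∈ S
      have h4 : s⁻¹ * ((x : G)⁻¹ * y) * s ∈ S := h3
      have : ((x : G) * s)⁻¹ * (y * s) = s⁻¹ * ((x : G)⁻¹ * y) * s := by group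
      rwa [this]
    · have h1' : x = y := h1
      subst h1'
      cases bx <;> cases by'
      · exact absurd rfl h2
      · show (x : G)⁻¹ * (x * s) ∈ S
        rwa [inv_mul_cancel_left]
      · show ((x : G) * s)⁻¹ * x ∈ S
        rw [mul_inv_rev, mul_assoc, inv_mul_cancel, mul_one]
        exact hS _ hsS
      · exact absurd rfl h2
    · have h1' : bx = true := h1
      have h2' : by' = false := h2
      subst h1' h2'
      show ((x : G) * s)⁻¹ * y ∈ S
      rw [mul_inv_rev, mul_assoc]
      exact h3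
  refine ⟨_, _, (hw.map f hf hR).congr ?_⟩
  rw [Set.eq_univ_iff_forall]
  intro g
  by_cases hgA : g ∈ A
  · exact ⟨(⟨g, hgA⟩, false), Set.mem_univ _, rfl⟩
  · have h1 : g * s⁻¹ ∈ A := by
      rw [mem2, Subgroup.inv_mem_iff]
      tauto
    exact ⟨(⟨g * s⁻¹, h1⟩, true), Set.mem_univ _, inv_mul_cancel_right g s⟩

end Pool.Agent.R890.Ham
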